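import Mathlib

set_option autoImplicit false

namespace Pool.Agent.H.HerQ

open Polynomial

/-- physicists' Hermite polynomials -/
noncomputable def H (R : Type) [CommRing R] : ℕ → R[X]
  | 0 => 1
  | k + 1 => 2 * X * H R k - derivative (H R k)

theorem H_eig (R : Type) [CommRing R] (k : ℕ) :
    derivative (derivative (H R k)) = 2 * X * derivative (H R k) - 2 * (k : R[X]) * H R k := by
  induction k with
  | zero => simp [H]
  | succ k ih =>
    have h1 : derivative (H R (k + 1)) = 2 * ((k : R[X]) + 1) * H R k := by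
      simp only [H, derivative_sub, derivative_mul, derivative_X, ih]
      simp
      ring
    rw [h1]
    simp only [H, derivative_mul, derivative_add, derivative_natCast, derivative_one]
    simp
    ring

theorem H_map (k : ℕ) : (H ℝ k).map (algebraMap ℝ ℂ) = H ℂ k := by
  induction k with
  | zero => simp [H]
  | succ k ih => simp [H, ← ih, derivative_map]

theorem H_deg (k : ℕ) : (H ℂ k).natDegree ≤ k := by
  induction k with
  | zero => simp [H]
  | succ k ih =>
    simp only [H]
    refine (natDegree_sub_le _ _).trans (max_le ?_ ?_)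
    · refine natDegree_mul_le.trans ?_
      have : (2 * X : ℂ[X]).natDegree ≤ 1 := by compute_degree
      omega
    · have := natDegree_derivative_le (H ℂ k)
      omega

theorem H_iter (k : ℕ) : iteratedDeriv k (fun w : ℂ => Complex.exp (-w ^ 2)) =
    fun z => (-1) ^ k * (H ℂ k).eval z * Complex.exp (-z ^ 2) := by
  induction k with
  | zero => simp [H]
  | succ k ih =>
    rw [iteratedDeriv_succ, ih]
    funext z
    have h1 : HasDerivAt (fun z : ℂ => Complex.exp (-z ^ 2)) (Complex.exp (-z ^ 2) * (-(2 * z))) z := by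
      have := ((hasDerivAt_pow 2 z).neg).cexp
      simpa using this
    have h2 := ((((H ℂ k).hasDerivAt z).const_mul ((-1 : ℂ) ^ k)).mul h1).deriv
    have : (fun z => (-1 : ℂ) ^ k * (H ℂ k).eval z * Complex.exp (-z ^ 2)) =
      ((fun y => (-1 : ℂ) ^ k * eval y (H ℂ k)) * fun z => Complex.exp (-z ^ 2)) := by
      funext z; simp
    rw [this, h2]
    simp [H]
    ring

theorem H_val (k : ℕ) (z : ℂ) : (-1 : ℂ) ^ k * Complex.exp (z ^ 2) *
    iteratedDeriv k (fun w : ℂ => Complex.exp (-w ^ 2)) z = (H ℂ k).eval z := by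
  rw [H_iter]
  have h1 : Complex.exp (z ^ 2) * Complex.exp (-z ^ 2) = 1 := by
    rw [← Complex.exp_add]; simp
  have h2 : (-1 : ℂ) ^ k * (-1) ^ k = 1 := by
    rw [← mul_pow]; simp
  calc _ = ((-1 : ℂ) ^ k * (-1) ^ k) * (Complex.exp (z ^ 2) * Complex.exp (-z ^ 2)) *
      (H ℂ k).eval z := by ring
    _ = _ := by rw [h1, h2]; ring

/-- Sturm comparison, positive case -/
theorem sturm_pos (p : ℝ[X]) (lam w s : ℝ) (hw : 0 < w)
    (hp : derivative (derivative p) = 2 * X * derivative p - C lam * p)
    (hq : ∀ x ∈ Set.Icc s (s + Real.pi / w), w ^ 2 ≤ lam + 1 - x ^ 2)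
    (hpos : ∀ x ∈ Set.Icc s (s + Real.pi / w), 0 < p.eval x) : False := by
  set W : ℝ → ℝ := fun x => Real.exp (-x ^ 2 / 2) *
    (((derivative p).eval x - x * p.eval x) * Real.sin (w * (x - s))
      - p.eval x * (w * Real.cos (w * (x - s)))) with hW
  have hd : ∀ x, HasDerivAt W (Real.exp (-x ^ 2 / 2) * ((w ^ 2 - (lam + 1 - x ^ 2)) *
      (p.eval x * Real.sin (w * (x - s))))) x := by
    intro x
    have e1 : HasDerivAt (fun x : ℝ => Real.exp (-x ^ 2 / 2)) (Real.exp (-x ^ 2 / 2) * (-x)) x := by
      have h0 : HasDerivAt (fun x : ℝ => -x ^ 2 / 2) (-x) x := by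
        have := (((hasDerivAt_pow 2 x).neg).div_const 2)
        refine this.congr_deriv ?_
        simp; ring
      exact h0.exp
    have l1 : HasDerivAt (fun x : ℝ => w * (x - s)) w x := by
      simpa using ((hasDerivAt_id x).sub_const s).const_mul w
    have := e1.mul ((((((derivative p).hasDerivAt x).sub
      ((hasDerivAt_id x).mul (p.hasDerivAt x))).mul l1.sin).sub
      ((p.hasDerivAt x).mul (l1.cos.const_mul w))))
    refine this.congr_deriv ?_
    rw [hp]
    simp
    ring
  have hle : s ≤ s + Real.pi / w := by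
    have := div_pos Real.pi_pos hw
    linarith
  have hanti : AntitoneOn W (Set.Icc s (s + Real.pi / w)) := by
    apply antitoneOn_of_deriv_nonpos (convex_Icc _ _)
    · exact fun x _ => (hd x).continuousAt.continuousWithinAt
    · exact fun x _ => (hd x).differentiableAt.differentiableWithinAt
    · intro x hx
      have hx' := interior_subset hx
      rw [(hd x).deriv]
      apply mul_nonpos_of_nonneg_of_nonpos (Real.exp_pos _).le
      apply mul_nonpos_of_nonpos_of_nonneg
      · linarith [hq x hx']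
      · apply mul_nonneg (hpos x hx').le
        apply Real.sin_nonneg_of_nonneg_of_le_pi
        · exact mul_nonneg hw.le (by linarith [hx'.1])
        · have : x - s ≤ Real.pi / w := by linarith [hx'.2]
          rwa [le_div_iff₀' hw] at this
  have h := hanti (Set.left_mem_Icc.2 hle) (Set.right_mem_Icc.2 hle) hle
  have a1 : W s < 0 := by
    simp only [hW, sub_self, mul_zero, Real.sin_zero, Real.cos_zero, mul_one, zero_sub]
    have := hpos s (Set.left_mem_Icc.2 hle)
    have := Real.exp_pos (-s ^ 2 / 2)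
    have : 0 < Real.exp (-s ^ 2 / 2) * (p.eval s * w) := by positivity
    linarith
  have a2 : 0 < W (s + Real.pi / w) := by
    have e : w * (s + Real.pi / w - s) = Real.pi := by field_simp; ring
    simp only [hW, e, Real.sin_pi, Real.cos_pi, mul_zero, zero_sub]
    have := hpos _ (Set.right_mem_Icc.2 hle)
    have h3 := Real.exp_pos (-(s + Real.pi / w) ^ 2 / 2)
    have : 0 < Real.exp (-(s + Real.pi / w) ^ 2 / 2) * (p.eval (s + Real.pi / w) * w) := by
      positivity
    linarith
  linarith

theorem sturm (p : ℝ[X]) (lam w s : ℝ) (hw : 0 < w)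
    (hp : derivative (derivative p) = 2 * X * derivative p - C lam * p)
    (hq : ∀ x ∈ Set.Icc s (s + Real.pi / w), w ^ 2 ≤ lam + 1 - x ^ 2) :
    ∃ x ∈ Set.Icc s (s + Real.pi / w), p.eval x = 0 := by
  by_contra hne
  push Not at hne
  have hle : s ≤ s + Real.pi / w := by
    have := div_pos Real.pi_pos hw
    linarith
  have hs := Set.left_mem_Icc.2 hle
  have hc : ContinuousOn (fun x => p.eval x) (Set.Icc s (s + Real.pi / w)) :=
    p.continuous.continuousOn
  rcases lt_or_gt_of_ne (hne s hs) with h | h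
  · refine sturm_pos (-p) lam w s hw ?_ hq ?_
    · simp only [derivative_neg, hp]; ring
    · intro x hx
      by_contra hx'
      have : 0 ≤ p.eval x := by simpa using hx'
      obtain ⟨y, hy, hy0⟩ := (convex_Icc _ _).isPreconnected.intermediate_value hs hx hc
        (show (0 : ℝ) ∈ Set.Icc _ _ from ⟨h.le, this⟩)
      exact hne y hy hy0
  · refine sturm_pos p lam w s hw hp hq ?_
    intro x hx
    by_contra hx'
    have : p.eval x ≤ 0 := by simpa using hx'
    obtain ⟨y, hy, hy0⟩ := (convex_Icc _ _).isPreconnected.intermediate_value hx hs hc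
      (show (0 : ℝ) ∈ Set.Icc _ _ from ⟨this, h.le⟩)
    exact hne y hy hy0

/-- many zeros of the Hermite polynomial near the origin -/
theorem many_zeros (m : ℕ) (hm : 16 ≤ m) : ∃ S : Finset ℂ, S.card = Nat.sqrt m ∧
    ∀ ξ ∈ S, ‖ξ‖ ≤ 4 ∧ (H ℂ m).eval ξ = 0 := by
  set N := Nat.sqrt m with hN
  have hN0 : 0 < N := Nat.sqrt_pos.2 (by omega)
  have hNr : (0 : ℝ) < N := by exact_mod_cast hN0
  have hNm : ((N : ℝ)) ^ 2 ≤ m := by
    have := Nat.sqrt_le' m
    exact_mod_cast this
  have hpi : Real.pi / N < 4 / N := div_lt_div_of_pos_right Real.pi_lt_four hNr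
  have key : ∀ j : Fin N, ∃ x ∈ Set.Icc (4 * (j : ℝ) / N) (4 * (j : ℝ) / N + Real.pi / N),
      (H ℝ m).eval x = 0 ∧ |x| ≤ 4 := by
    intro j
    have hj : ((j : ℕ) : ℝ) + 1 ≤ N := by exact_mod_cast j.2
    have hb : ∀ x ∈ Set.Icc (4 * (j : ℝ) / N) (4 * (j : ℝ) / N + Real.pi / N), |x| ≤ 4 := by
      intro x hx
      have h0 : 0 ≤ 4 * (j : ℝ) / N := by positivity
      have h1 : 4 * (j : ℝ) / N + 4 / N ≤ 4 := by
        rw [← add_div, div_le_iff₀ hNr]; linarith
      rw [abs_le]; constructor <;> linarith [hx.1, hx.2]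
    obtain ⟨x, hx, hx0⟩ := sturm (H ℝ m) (2 * m) N (4 * (j : ℝ) / N) hNr
      (by rw [H_eig]; simp [map_ofNat]) (by
        intro x hx
        have h1 := hb x hx
        have h2 : x ^ 2 ≤ 16 := by
          have := sq_abs x
          nlinarith [abs_nonneg x]
        have : (16 : ℝ) ≤ m := by exact_mod_cast hm
        linarith)
    exact ⟨x, hx, hx0, hb x hx⟩
  choose x hx hx0 hx4 using key
  have hmono : StrictMono x := by
    intro i j hij
    have h1 : ((i : ℕ) : ℝ) + 1 ≤ (j : ℕ) := by exact_mod_cast hij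
    have h2 : 4 * (i : ℝ) / N + 4 / N ≤ 4 * (j : ℝ) / N := by
      rw [← add_div]; apply div_le_div_of_nonneg_right _ hNr.le; linarith
    linarith [(hx i).2, (hx j).1]
  refine ⟨Finset.univ.image (fun j => (x j : ℂ)), ?_, ?_⟩
  · rw [Finset.card_image_of_injective _
      (fun i j h => hmono.injective (Complex.ofReal_injective h))]
    simp
  · intro ξ hξ
    obtain ⟨j, -, rfl⟩ := Finset.mem_image.1 hξ
    refine ⟨by simpa using hx4 j, ?_⟩
    rw [← H_map]
    have := eval_map_algebraMap (H ℝ m) ((x j : ℝ) : ℂ)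
    rw [this]
    have h2 := aeval_algebraMap_apply_eq_algebraMap_eval (A := ℂ) (x j) (H ℝ m)
    simpa [hx0 j] using h2

end Pool.Agent.H.HerQ
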