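import Pool.Agent.H.MP_6deb90_an.A

set_option autoImplicit false

namespace Pool.Agent.H.HerQ

open Polynomial

/-- all derivatives at `z` are geometrically bounded -/
def Bd (z : ℂ) (p : ℂ[X]) (c D : ℝ) : Prop :=
  ∀ i : ℕ, ‖(derivative^[i] p).eval z‖ ≤ c * D ^ i

theorem Bd.nonneg {z : ℂ} {p : ℂ[X]} {c D : ℝ} (h : Bd z p c D) : 0 ≤ c := by
  have := h 0
  simp only [Function.iterate_zero, id, pow_zero, mul_one] at this
  exact (norm_nonneg _).trans this

theorem Bd.mono {z : ℂ} {p : ℂ[X]} {c D c' D' : ℝ} (h : Bd z p c D) (hD : 0 ≤ D) (h1 : c ≤ c')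
    (h2 : D ≤ D') : Bd z p c' D' := fun i =>
  (h i).trans (mul_le_mul h1 (pow_le_pow_left₀ hD h2 i) (pow_nonneg hD i) (h.nonneg.trans h1))

theorem Bd.deriv {z : ℂ} {p : ℂ[X]} {c D : ℝ} (h : Bd z p c D) :
    Bd z (derivative p) (c * D) D := fun i => by
  have := h (i + 1)
  rw [Function.iterate_succ_apply] at this
  calc _ ≤ _ := this
    _ = _ := by ring

theorem Bd.sub {z : ℂ} {p q : ℂ[X]} {c c' D : ℝ} (h : Bd z p c D) (h' : Bd z q c' D) :
    Bd z (p - q) (c + c') D := fun i => by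
  rw [iterate_derivative_sub, eval_sub]
  refine (norm_sub_le _ _).trans ?_
  linarith [h i, h' i]

theorem Bd.cmul {z : ℂ} {p : ℂ[X]} {c D : ℝ} (h : Bd z p c D) (a : ℂ) :
    Bd z (C a * p) (‖a‖ * c) D := fun i => by
  rw [iterate_derivative_C_mul, eval_mul, eval_C, norm_mul, mul_assoc]
  exact mul_le_mul_of_nonneg_left (h i) (norm_nonneg _)

theorem iter_mulX (a : ℂ) (p : ℂ[X]) (i : ℕ) : derivative^[i + 1] ((X - C a) * p) =
    (X - C a) * derivative^[i + 1] p + ((i : ℂ[X]) + 1) * derivative^[i] p := by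
  induction i with
  | zero => simp; ring
  | succ i ih =>
    rw [Function.iterate_succ_apply', ih, Function.iterate_succ_apply' _ (i + 1),
      Function.iterate_succ_apply' _ i]
    simp
    ring

theorem bern (D s : ℝ) (hD : 0 ≤ D) (hs : 0 ≤ s) (i : ℕ) :
    D ^ (i + 1) + (i + 1) * s * D ^ i ≤ (D + s) ^ (i + 1) := by
  induction i with
  | zero => simp
  | succ i ih =>
    have h1 := mul_le_mul_of_nonneg_right ih (add_nonneg hD hs)
    have h2 : 0 ≤ ((i : ℝ) + 1) * s * D ^ i * s := by positivity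
    push_cast
    calc _ = (D ^ (i + 1) + (i + 1) * s * D ^ i) * (D + s) - (i + 1) * s * D ^ i * s := by ring
      _ ≤ (D + s) ^ (i + 1) * (D + s) := by linarith
      _ = _ := by ring

theorem Bd.mulX {z : ℂ} {p : ℂ[X]} {c D : ℝ} (h : Bd z p c D) (hD : 0 ≤ D) (a : ℂ) (s W : ℝ)
    (hs : 0 ≤ s) (hW : ‖z - a‖ ≤ W) (h1 : 1 ≤ s * W) : Bd z ((X - C a) * p) (c * W) (D + s) := by
  have hc := h.nonneg
  have hW0 : 0 ≤ W := (norm_nonneg _).trans hW
  intro i
  cases i with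
  | zero =>
    have := h 0
    simp only [Function.iterate_zero, id, pow_zero, mul_one, eval_mul, eval_sub, eval_X, eval_C,
      norm_mul] at this ⊢
    rw [mul_comm c]
    exact mul_le_mul hW this (norm_nonneg _) hW0
  | succ i =>
    rw [iter_mulX]
    simp only [eval_add, eval_mul, eval_sub, eval_X, eval_C, eval_natCast, eval_one]
    refine (norm_add_le _ _).trans ?_
    rw [norm_mul, norm_mul]
    have e : ‖(i : ℂ) + 1‖ = i + 1 := by
      have : (i : ℂ) + 1 = ((i + 1 : ℕ) : ℂ) := by push_cast; ring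
      rw [this, Complex.norm_natCast]; push_cast; ring
    rw [e]
    have a1 := mul_le_mul hW (h (i + 1)) (norm_nonneg _) hW0
    have a2 := mul_le_mul_of_nonneg_left (h i) (show (0 : ℝ) ≤ i + 1 by positivity)
    have a3 : ((i : ℝ) + 1) * (c * D ^ i) ≤ (s * W) * ((i + 1) * (c * D ^ i)) :=
      le_mul_of_one_le_left (by positivity) h1
    have a4 := mul_le_mul_of_nonneg_left (bern D s hD hs i) (mul_nonneg hc hW0)
    nlinarith

theorem Bd_prod (z : ℂ) (r : ℝ) (hr : 0 < r) (S : Multiset ℂ) (hS : ∀ a ∈ S, r ≤ ‖z - a‖) :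
    Bd z (S.map fun a => X - C a).prod ‖((S.map fun a => X - C a).prod).eval z‖
      (S.card / r) := by
  induction S using Multiset.induction_on with
  | empty =>
    intro i
    cases i with
    | zero => simp
    | succ i => simp
  | cons a S ih =>
    have h := (ih fun b hb => hS b (Multiset.mem_cons_of_mem hb)).mulX (by positivity) a (1 / r)
      ‖z - a‖ (by positivity) le_rfl (by
        have := hS a (Multiset.mem_cons_self _ _)
        rw [one_div, inv_mul_eq_div, le_div_iff₀ hr]; linarith)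
    rw [Multiset.map_cons, Multiset.prod_cons]
    refine h.mono (by positivity) (le_of_eq ?_) (le_of_eq ?_)
    · simp [mul_comm]
    · simp [add_div]

theorem Bd_of_free (T : ℂ[X]) (z : ℂ) (r : ℝ) (hr : 0 < r) (d : ℕ) (hd : T.natDegree ≤ d)
    (hT : ∀ w, ‖z - w‖ ≤ r → T.eval w ≠ 0) : Bd z T ‖T.eval z‖ (d / r) := by
  have hsp : T.Splits := IsAlgClosed.splits T
  have e := hsp.eq_prod_roots
  have hcard : T.roots.card ≤ d := (card_roots' T).trans hd
  have h := (Bd_prod z r hr T.roots (by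
    intro a ha
    by_contra hlt
    exact hT a (le_of_lt (not_le.1 hlt)) (isRoot_of_mem_roots ha))).cmul T.leadingCoeff
  rw [← e] at h
  refine h.mono (by positivity) (le_of_eq ?_) ?_
  · conv_rhs => rw [e]
    simp
  · apply div_le_div_of_nonneg_right _ hr.le
    exact_mod_cast hcard

/-- the Hermite operator shifted by `k` -/
noncomputable def E (k : ℕ) (p : ℂ[X]) : ℂ[X] :=
  C 2 * ((X - C 0) * derivative p) - derivative (derivative p) - C (2 * (k : ℂ)) * p

theorem Bd.E {z : ℂ} {p : ℂ[X]} {c D : ℝ} (h : Bd z p c D) (hD : 0 ≤ D) (W : ℝ) (hW : ‖z‖ ≤ W)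
    (h1 : 1 ≤ W) (k : ℕ) (K : ℝ) (hK : (k : ℝ) ≤ K) :
    Bd z (E k p) (c * (2 * W * D + D ^ 2 + 2 * K)) (D + 1) := by
  have hc := h.nonneg
  have a1 := (h.deriv.mulX hD 0 1 W zero_le_one (by simpa using hW) (by simpa using h1)).cmul 2
  have a2 := h.deriv.deriv.mono hD le_rfl (show D ≤ D + 1 by linarith)
  have a3 := (h.mono hD le_rfl (show D ≤ D + 1 by linarith)).cmul (2 * (k : ℂ))
  refine ((a1.sub a2).sub a3).mono (by linarith) ?_ le_rfl
  simp only [Complex.norm_ofNat, norm_mul, Complex.norm_natCast]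
  nlinarith

/-- a four-term Hermite combination -/
noncomputable def T (n m : ℕ) (α β γ δ : ℂ) : ℂ[X] :=
  C α * H ℂ 0 + C β * H ℂ 1 + C γ * H ℂ n + C δ * H ℂ m

theorem E_T (k n m : ℕ) (α β γ δ : ℂ) : E k (T n m α β γ δ) =
    T n m (-2 * k * α) (2 * (1 - k) * β) (2 * (n - k) * γ) (2 * (m - k) * δ) := by
  simp only [E, T, derivative_add, derivative_C_mul, H_eig]
  simp [map_ofNat]
  ring

theorem T_deg (n m d : ℕ) (h1 : 1 ≤ d) (hn : n ≤ d) (hm : m ≤ d) (α β γ δ : ℂ) :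
    (T n m α β γ δ).natDegree ≤ d := by
  have k : ∀ (a : ℂ) (j : ℕ), j ≤ d → (C a * H ℂ j).natDegree ≤ d := fun a j hj =>
    (natDegree_C_mul_le _ _).trans ((H_deg j).trans hj)
  unfold T
  refine natDegree_add_le_of_degree_le (natDegree_add_le_of_degree_le
    (natDegree_add_le_of_degree_le (k _ _ (by omega)) (k _ _ h1)) (k _ _ hn)) (k _ _ hm)

/-- bounded degree case -/
theorem bounded (d n m : ℕ) (hn : 2 ≤ n) (hm : 2 ≤ m) (hnd : n ≤ d) (hmd : m ≤ d) (a b : ℂ) :
    ∃ z : ℂ, ‖z‖ ≤ 2 * (d * (3 + 2 * d) * (8 + 2 * d)) ∧ (T n m 1 1 a b).eval z = 0 := by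
  by_contra hne
  push Not at hne
  set κ : ℝ := d * (3 + 2 * d) * (8 + 2 * d) with hκ
  have hd2 : (2 : ℝ) ≤ d := by exact_mod_cast hn.trans hnd
  have hκ0 : 0 < κ := by positivity
  have hκd : (d : ℝ) ≤ 2 * κ := by
    have : (1 : ℝ) ≤ (3 + 2 * d) * (8 + 2 * d) := by nlinarith
    rw [hκ]; nlinarith
  set t := (T n m 1 1 a b).eval 0 with ht
  have hB := Bd_of_free (T n m 1 1 a b) 0 (2 * κ) (by positivity) d
    (T_deg n m d (by omega) hnd hmd _ _ _ _) (fun w hw => hne w (by simpa using hw))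
  have hq0 : 0 ≤ (d : ℝ) / (2 * κ) := by positivity
  have hq1 : (d : ℝ) / (2 * κ) ≤ 1 := by rwa [div_le_one (by positivity)]
  have hp : Bd 0 (T n m (1 - t) 1 a b) (‖t‖ * (d / (2 * κ))) 1 := by
    have e : T n m (1 - t) 1 a b = T n m 1 1 a b - C t := by
      simp [T, H]; ring
    intro i
    rw [e]
    cases i with
    | zero => simp [← ht]; positivity
    | succ i =>
      rw [iterate_derivative_sub, iterate_derivative_C (by omega), sub_zero]
      refine (hB (i + 1)).trans ?_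
      rw [one_pow, mul_one, pow_succ]
      apply mul_le_mul_of_nonneg_left _ (norm_nonneg _)
      exact mul_le_of_le_one_left hq0 (pow_le_one₀ hq0 hq1)
  have hnr : (n : ℝ) ≤ d := by exact_mod_cast hnd
  have hmr : (m : ℝ) ≤ d := by exact_mod_cast hmd
  have h2 := (hp.E zero_le_one 1 (by simp) le_rfl m d hmr).E (by norm_num) 1 (by simp) le_rfl n d hnr
  rw [E_T, E_T] at h2
  have ec : ‖t‖ * (d / (2 * κ)) * (2 * 1 * 1 + 1 ^ 2 + 2 * d) *
      (2 * 1 * (1 + 1) + (1 + 1) ^ 2 + 2 * d) = ‖t‖ / 2 := by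
    rw [hκ]; field_simp; ring
  rw [ec] at h2
  have b0 := h2 0
  have b1 := h2 1
  simp [T, H] at b0 b1
  have hn2 : (2 : ℝ) ≤ n := by exact_mod_cast hn
  have hm2 : (2 : ℝ) ≤ m := by exact_mod_cast hm
  have c1 : ∀ k : ℕ, 2 ≤ k → (1 : ℝ) ≤ ‖(1 : ℂ) - k‖ := by
    intro k hk
    have h1 := norm_sub_norm_le (k : ℂ) 1
    rw [norm_sub_rev] at h1
    have : (2 : ℝ) ≤ k := by exact_mod_cast hk
    simp at h1
    linarith
  have c2 := c1 n hn
  have c3 := c1 m hm
  have c4 : ‖t‖ ≤ 1 + ‖1 - t‖ := by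
    have := norm_sub_norm_le t 1
    rw [norm_sub_rev] at this
    simp at this
    linarith
  have c5 : ‖1 - t‖ ≤ ‖t‖ / 2 := by
    have : 0 ≤ ‖1 - t‖ := norm_nonneg _
    have h4 : 1 ≤ (2 * (n : ℝ)) * (2 * m) := by nlinarith
    nlinarith
  have c6 : 1 ≤ ‖(1 : ℂ) - n‖ * ‖(1 : ℂ) - m‖ := by nlinarith
  nlinarith

end Pool.Agent.H.HerQ
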