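import Pool.Agent.H.MP_6deb90_an.B

set_option autoImplicit false

namespace Pool.Agent.H.HerQ

open Polynomial

/-- many zeros force smallness -/
theorem small (Q : ℂ[X]) (r : ℝ) (hr : 0 < r) (hQ : ∀ w : ℂ, ‖w‖ ≤ 4 * r → Q.eval w ≠ 0)
    (S : Finset ℂ) : ∀ (p : ℂ[X]) (B : ℝ), (∀ ξ ∈ S, ‖ξ‖ ≤ r ∧ p.eval ξ = 0) →
      (∀ w : ℂ, ‖w‖ = 4 * r → ‖p.eval w‖ ≤ B * ‖Q.eval w‖) →
      ∀ z : ℂ, ‖z‖ ≤ r → ‖p.eval z‖ ≤ B * (2 / 3) ^ S.card * ‖Q.eval z‖ := by
  induction S using Finset.induction_on with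
  | empty =>
    intro p B _ hB z hz
    have hd : DiffContOnCl ℂ (fun w => p.eval w / Q.eval w) (Metric.ball 0 (4 * r)) := by
      apply DifferentiableOn.diffContOnCl
      rw [closure_ball _ (by positivity)]
      exact p.differentiable.differentiableOn.div Q.differentiable.differentiableOn
        (fun w hw => hQ w (by simpa using hw))
    have h := Complex.norm_le_of_forall_mem_frontier_norm_le Metric.isBounded_ball hd
      (C := B) (z := z) (by
        intro w hw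
        rw [frontier_ball _ (by positivity)] at hw
        have hw' : ‖w‖ = 4 * r := by simpa using hw
        have := norm_pos_iff.2 (hQ w hw'.le)
        rw [norm_div, div_le_iff₀ this]
        exact hB w hw') (by
        rw [closure_ball _ (by positivity)]
        simp; linarith)
    have := norm_pos_iff.2 (hQ z (by linarith))
    rw [norm_div, div_le_iff₀ this] at h
    simpa using h
  | insert ξ S hξ ih =>
    intro p B hS hB z hz
    obtain ⟨h1, h2⟩ := hS ξ (Finset.mem_insert_self _ _)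
    obtain ⟨q, rfl⟩ := dvd_iff_isRoot.2 (show p.IsRoot ξ from h2)
    have h := ih q (B / (3 * r)) (by
      intro η hη
      obtain ⟨a1, a2⟩ := hS η (Finset.mem_insert_of_mem hη)
      refine ⟨a1, ?_⟩
      have : η - ξ ≠ 0 := sub_ne_zero.2 (by rintro rfl; exact hξ hη)
      simpa [this] using a2) (by
      intro w hw
      have a1 := hB w hw
      simp only [eval_mul, eval_sub, eval_X, eval_C, norm_mul] at a1
      have a2 : 3 * r ≤ ‖w - ξ‖ := by
        have := norm_sub_norm_le w ξ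
        linarith
      rw [div_mul_eq_mul_div, le_div_iff₀ (by positivity)]
      nlinarith [norm_nonneg (q.eval w)]) z hz
    simp only [eval_mul, eval_sub, eval_X, eval_C, norm_mul]
    have a2 : ‖z - ξ‖ ≤ 2 * r := by
      have := norm_sub_le z ξ
      linarith
    rw [Finset.card_insert_of_notMem hξ]
    calc _ ≤ 2 * r * (B / (3 * r) * (2 / 3) ^ S.card * ‖Q.eval z‖) :=
          mul_le_mul a2 h (norm_nonneg _) (by positivity)
      _ = _ := by rw [pow_succ]; field_simp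

theorem step (r : ℝ) (hr : 4 ≤ r) : ∃ M : ℕ, ∀ n m : ℕ, M ≤ m → n < m → ∀ a b : ℂ,
    (∃ z : ℂ, ‖z‖ ≤ r ∧ (T n m 1 1 a 0).eval z = 0) →
    ∃ z : ℂ, ‖z‖ ≤ 4 * r + 1 ∧ (T n m 1 1 a b).eval z = 0 := by
  set A : ℝ := (8 * r + 3) ^ 3 * 7 ^ 6 with hA
  have hA0 : 0 < A := by positivity
  have ht := (tendsto_pow_const_mul_const_pow_of_abs_lt_one 12
    (show |(2 / 3 : ℝ)| < 1 by norm_num [abs_of_pos])).const_mul A
  rw [mul_zero] at ht
  obtain ⟨N0, hN0⟩ := Filter.eventually_atTop.1 (ht.eventually (gt_mem_nhds zero_lt_one))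
  refine ⟨N0 ^ 2 + 16, ?_⟩
  rintro n m hm hnm a b ⟨z, hz, hz0⟩
  by_contra hne
  push Not at hne
  obtain ⟨S, hcard, hS⟩ := many_zeros m (by omega)
  set N := Nat.sqrt m with hN
  have hNN : N0 ≤ N := Nat.le_sqrt'.2 (by omega)
  have hN1 : 1 ≤ N := Nat.le_sqrt'.2 (by omega)
  have hmN : m < (N + 1) ^ 2 := Nat.lt_succ_sqrt' m
  have hm7 : (m : ℝ) + 3 ≤ 7 * N ^ 2 := by
    have : m + 3 ≤ 7 * N ^ 2 := by nlinarith
    exact_mod_cast this
  have hm16 : (16 : ℝ) ≤ m := by exact_mod_cast (show 16 ≤ m by omega)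
  set K : ℝ := (8 * r + 3) * (m + 3) ^ 2 with hK
  have hbd : ∀ w : ℂ, ‖w‖ = 4 * r →
      ‖(C b * H ℂ m).eval w‖ ≤ K ^ 3 * ‖(T n m 1 1 a b).eval w‖ := by
    intro w hw
    have hB := Bd_of_free (T n m 1 1 a b) w 1 one_pos m
      (T_deg n m m (by omega) hnm.le le_rfl _ _ _ _) (by
        intro v hv
        apply hne v
        have := norm_sub_norm_le v w
        rw [norm_sub_rev] at this
        linarith)
    have hKD : ∀ D : ℝ, 0 ≤ D → D ≤ m + 3 → 2 * (4 * r) * D + D ^ 2 + 2 * m ≤ K := by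
      intro D h0 h1
      have a1 : D ≤ (m + 3) ^ 2 := by nlinarith
      have a2 : D ^ 2 ≤ (m + 3) ^ 2 := by nlinarith
      have a3 : (m : ℝ) ≤ (m + 3) ^ 2 := by nlinarith
      rw [hK]; nlinarith
    have hc := hB.nonneg
    have hK0 : 0 ≤ K := by positivity
    have hnr : (n : ℝ) ≤ m := by exact_mod_cast hnm.le
    rw [div_one] at hB
    have h1 := (hB.E (by positivity) (4 * r) hw.le (by linarith) n m hnr).mono (by positivity)
      (mul_le_mul_of_nonneg_left (hKD m (by positivity) (by linarith)) hc) le_rfl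
    have h2 := (h1.E (by positivity) (4 * r) hw.le (by linarith) 1 m (by simp; linarith)).mono
      (by positivity)
      (mul_le_mul_of_nonneg_left (hKD _ (by positivity) (by linarith)) h1.nonneg) le_rfl
    have h3 := (h2.E (by positivity) (4 * r) hw.le (by linarith) 0 m (by simp)).mono
      (by positivity)
      (mul_le_mul_of_nonneg_left (hKD _ (by positivity) (by linarith)) h2.nonneg) le_rfl
    rw [E_T, E_T, E_T] at h3
    have b0 := h3 0
    have e : T n m (-2 * ((0 : ℕ) : ℂ) * (-2 * ((1 : ℕ) : ℂ) * (-2 * n * 1)))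
        (2 * (1 - ((0 : ℕ) : ℂ)) * (2 * (1 - ((1 : ℕ) : ℂ)) * (2 * (1 - n) * 1)))
        (2 * (n - ((0 : ℕ) : ℂ)) * (2 * (n - ((1 : ℕ) : ℂ)) * (2 * (n - n) * a)))
        (2 * (m - ((0 : ℕ) : ℂ)) * (2 * (m - ((1 : ℕ) : ℂ)) * (2 * (m - n) * b))) =
        C (8 * (m : ℂ) * (m - 1) * (m - n)) * (C b * H ℂ m) := by
      simp [T, map_ofNat]; ring
    rw [e] at b0
    simp only [Function.iterate_zero, id, pow_zero, mul_one] at b0
    rw [eval_mul, eval_C, norm_mul] at b0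
    have c1 : (1 : ℝ) ≤ ‖8 * (m : ℂ) * (m - 1) * (m - n)‖ := by
      have e2 : 8 * (m : ℂ) * (m - 1) * (m - n) = ((8 * (m : ℝ) * (m - 1) * (m - n) : ℝ) : ℂ) := by
        push_cast; ring
      have : (n : ℝ) + 1 ≤ m := by exact_mod_cast hnm
      have a1 : (1 : ℝ) ≤ 8 * (m : ℝ) * (m - 1) := by nlinarith
      have a2 : (1 : ℝ) ≤ 8 * (m : ℝ) * (m - 1) * (m - n) := by nlinarith
      rw [e2, Complex.norm_real]
      exact a2.trans (le_abs_self _)
    nlinarith [norm_nonneg ((C b * H ℂ m).eval w)]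
  have h := small (T n m 1 1 a b) r (by linarith) (fun w hw => hne w (by linarith)) S
    (C b * H ℂ m) (K ^ 3) (by
      intro ξ hξ
      refine ⟨(hS ξ hξ).1.trans hr, by simp [(hS ξ hξ).2]⟩) hbd z hz
  have e : (T n m 1 1 a b).eval z = (C b * H ℂ m).eval z := by
    simp only [T, eval_add, eval_mul, eval_C] at hz0 ⊢
    linear_combination hz0
  have hpos := norm_pos_iff.2 (hne z (by linarith))
  rw [← e, hcard] at h
  have hlt := hN0 N hNN
  have hK3 : K ^ 3 ≤ A * N ^ 12 := by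
    have : ((m : ℝ) + 3) ^ 6 ≤ (7 * N ^ 2) ^ 6 := pow_le_pow_left₀ (by positivity) hm7 6
    calc K ^ 3 = (8 * r + 3) ^ 3 * (m + 3) ^ 6 := by rw [hK]; ring
      _ ≤ (8 * r + 3) ^ 3 * (7 * N ^ 2) ^ 6 :=
        mul_le_mul_of_nonneg_left this (by positivity)
      _ = _ := by rw [hA]; ring
  have : K ^ 3 * (2 / 3) ^ N < 1 := by
    refine lt_of_le_of_lt ?_ hlt
    rw [← mul_assoc]
    exact mul_le_mul_of_nonneg_right hK3 (by positivity)
  nlinarith

theorem step' (r : ℝ) (hr : 4 ≤ r) : ∃ r' : ℝ, 4 ≤ r' ∧ ∀ n m : ℕ, 2 ≤ m → n < m → ∀ a b : ℂ,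
    (2 ≤ n ∨ a = 0) → (∃ z : ℂ, ‖z‖ ≤ r ∧ (T n m 1 1 a 0).eval z = 0) →
    ∃ z : ℂ, ‖z‖ ≤ r' ∧ (T n m 1 1 a b).eval z = 0 := by
  obtain ⟨M, hM⟩ := step r hr
  refine ⟨max (4 * r + 1) (2 * (M * (3 + 2 * M) * (8 + 2 * M))),
    le_max_of_le_left (by linarith), ?_⟩
  intro n m hm hnm a b hn hz
  by_cases h : M ≤ m
  · obtain ⟨z, h1, h2⟩ := hM n m h hnm a b hz
    exact ⟨z, le_max_of_le_left h1, h2⟩
  · rcases hn with hn | rfl
    · obtain ⟨z, h1, h2⟩ := bounded M n m hn hm (by omega) (by omega) a b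
      exact ⟨z, le_max_of_le_right h1, h2⟩
    · obtain ⟨z, h1, h2⟩ := bounded M m m hm hm (by omega) (by omega) 0 b
      exact ⟨z, le_max_of_le_right h1, by simpa [T] using h2⟩

theorem main : ∃ c : ℝ, ∀ n m : ℕ, 2 ≤ n → n < m → ∀ a b : ℂ,
    ∃ z : ℂ, ‖z‖ ≤ c ∧ (T n m 1 1 a b).eval z = 0 := by
  obtain ⟨r1, hr1, h1⟩ := step' 4 le_rfl
  obtain ⟨r2, -, h2⟩ := step' r1 hr1
  refine ⟨r2, fun n m hn hnm a b => h2 n m (by omega) hnm a b (Or.inl hn) ?_⟩
  obtain ⟨z, hz, hz0⟩ := h1 0 n hn (by omega) 0 a (Or.inr rfl)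
    ⟨-1 / 2, by simp; norm_num, by simp [T, H]; norm_num⟩
  exact ⟨z, hz, by simpa [T] using hz0⟩

end Pool.Agent.H.HerQ
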